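import Pool.Agent.H98.CE.Targets

/-! (BLK) the first blocks. -/

set_option autoImplicit false

open MeasureTheory ProbabilityTheory Filter Topology
open Pool.Agent.H95 Pool.Agent.H95.Cop Pool.Agent.H98.CE
open Pool.Agent.H55.CG (pz VV Mo)

namespace Pool.Agent.H81.CEL

theorem Mo_nn (ν : Measure ℝ) (t : ℝ) : 0 ≤ Mo ν t :=
  integral_nonneg fun _ => (Real.exp_pos _).le

open Classical in
theorem II_card_le (np J : ℕ) (jj : ℕ → ℕ) : ((II np J jj).card : ℝ) ≤ (np : ℝ) ^ 2 := by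
  have h1 : (II np J jj).card ≤ np * np := by
    unfold II
    refine (Finset.card_filter_le _ _).trans (le_of_eq ?_)
    rw [Finset.card_product, Finset.card_range]
  calc ((II np J jj).card : ℝ) ≤ ((np * np : ℕ) : ℝ) := by exact_mod_cast h1
    _ = (np : ℝ) ^ 2 := by
        push_cast
        ring

theorem mem_II {np J : ℕ} {jj : ℕ → ℕ} {i : ℕ × ℕ} (h : i ∈ II np J jj) :
    i.1 < i.2 ∧ i.2 < np := by
  unfold II at h
  rw [Finset.mem_filter, Finset.mem_product, Finset.mem_range, Finset.mem_range] at h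
  exact ⟨h.2.1, h.1.2⟩

/-- the main estimate for one pair of windows -/
theorem blk_one (hBL1 : T_BL1) (hBL2 : T_BL2) (hTL2 : T_TL2) (K : PMF ℕ) (ν : Measure ℝ)
    [IsProbabilityMeasure ν] (hexp : ∀ t : ℝ, Integrable (fun z => Real.exp (t * z)) ν) (ℓ : ℕ)
    (α β κ s ϑ δ : ℝ) (hℓ : 1 ≤ ℓ) (hα : 0 < α) (hκ : 0 < κ) (hκ1 : κ ≤ 1) (hs : 0 < s)
    (hs1 : s < 1 / (1 + α)) (hϑ : 0 < ϑ) (hδ : 0 < δ) (hMM : MM ν ℓ (1 / (1 + α)) δ ϑ s)
    (aY aV np S T j : ℕ) (haY : 1 ≤ aY) (haV : 1 ≤ aV) (hST : S < T) (hT : T < np)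
    (h1 : ((j : ℝ) + 1) * β ≤ ((T - S : ℕ) : ℝ) * (2 * ϑ * ((aY + aV : ℕ) : ℝ)))
    (h2 : ((T - S : ℕ) : ℝ) * (2 * ϑ * ((aY + aV : ℕ) : ℝ)) ≤ ((j : ℝ) + 2) * β)
    (hnp : 0 ≤ 1 - np * Real.exp (-ϑ * aY / 4)) :
    ((aV : ℝ) ^ 2) ^ (1 / (1 + α)) * κ ^ (1 / (1 + α)) /
          ((j + 2) * β / (2 * ϑ) + ((aY + aV : ℕ) : ℝ)) *
        (Real.exp (-4 * ϑ) * Real.exp (-δ * ((j + 2) * β + 2 * ϑ * ((aY + aV : ℕ) : ℝ))) *
          (1 - np * Real.exp (-ϑ * aY / 4))) -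
        Real.exp (s * (β * j)) * ((aV : ℝ) ^ 2 * (2 + Real.exp (2 * ϑ)) ^ 2 *
          Real.exp (-(1 / (1 + α) - s) * s * ((j + 1) * β - 2 * ϑ * ((aY + aV : ℕ) : ℝ)))) ≤
    (∫ x : ℕ → ℝ, (@ite ℝ (sg ℓ aY aV np S T x) (Classical.propDecidable _)
        (AA K ℓ α κ aY aV S T x ^ (1 / (1 + α))) 0) ∂(iid ν)) -
      Real.exp (s * (β * j)) *
        ∫ x : ℕ → ℝ, AA K ℓ α κ aY aV S T x ^ (1 / (1 + α) - s) ∂(iid ν) := by
  classical
  obtain ⟨m1, m2, m3, m4, m5, m6, m7, m8, m9, m10, m11⟩ := hMM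
  set γ : ℝ := 1 / (1 + α) with hγ
  set P : ℝ := ((aY + aV : ℕ) : ℝ) with hP
  have hP1 : 1 ≤ P := by
    rw [hP]
    exact_mod_cast (by omega : 1 ≤ aY + aV)
  have hγ0 : 0 < γ := by rw [hγ]; positivity
  have hγ1 : γ ≤ 1 := by
    rw [hγ, div_le_one (by linarith)]
    linarith
  set D : ℕ := T - S with hD
  have hD1 : 1 ≤ D := by omega
  set m : ℝ := Real.exp (-4 * ϑ) * Real.exp (-δ * ((j + 2) * β + 2 * ϑ * P)) *
    (1 - np * Real.exp (-ϑ * aY / 4)) with hm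
  have hm0 : 0 ≤ m := by
    rw [hm]
    exact mul_nonneg (by positivity) hnp
  have hmain := hBL1 K ν hexp ℓ α κ aY aV np S T m hℓ hα hκ haY haV hST hT hm0 ?_
  rotate_left
  · intro a b y y' z z' ha1 ha2 hb1 hb2 q1 q2 q3 q4 q5 q6
    have hy0 : (Mo ν (γ / 2) ^ ℓ) ^ aY ≤ Real.exp (-ϑ * aY / 4) * (Mo ν γ ^ ℓ) ^ aY := by
      have h3 := pow_le_pow_left₀ (pow_nonneg (Mo_nn ν (γ / 2)) ℓ) m7 aY
      rw [mul_pow, ← Real.exp_nat_mul] at h3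
      have e : (aY : ℝ) * (-ϑ / 4) = -ϑ * aY / 4 := by ring
      rwa [e] at h3
    have h3 := hTL2 ν hexp γ (Real.exp (-ϑ * aY / 4)) ℓ aY aV np S T a b hγ0
      (Real.exp_pos _).le hℓ haY hST hT ha1 ha2 hb1 hb2 m1 m2 hy0 y y' z z' q1 q2 q3 q4 q5 q6
    refine le_trans ?_ h3
    rw [hm]
    refine mul_le_mul_of_nonneg_right ?_ hnp
    refine mul_le_mul ?_ ?_ (Real.exp_pos _).le (by positivity)
    · have h4 := pow_le_pow_left₀ (Real.exp_pos _).le m6 2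
      rw [← Real.exp_nat_mul] at h4
      have e : ((2 : ℕ) : ℝ) * (-2 * ϑ) = -4 * ϑ := by push_cast; ring
      rwa [e] at h4
    · have h4 := pow_le_pow_left₀ (Real.exp_pos _).le m5 ((D + 1) * (aY + aV))
      rw [← Real.exp_nat_mul] at h4
      refine le_trans (Real.exp_le_exp.2 ?_) h4
      have e : (((D + 1) * (aY + aV) : ℕ) : ℝ) * (-2 * ϑ * δ) =
          -δ * ((D : ℝ) * (2 * ϑ * P) + 2 * ϑ * P) := by
        rw [hP]
        push_cast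
        ring
      rw [e]
      have h5 : (D : ℝ) * (2 * ϑ * P) + 2 * ϑ * P ≤ (j + 2) * β + 2 * ϑ * P := by linarith
      have h6 := mul_le_mul_of_nonneg_left h5 hδ.le
      linarith
  have hB : 2 + Mo ν 1 ^ ℓ ≤ 2 + Real.exp (2 * ϑ) := by linarith
  have herr := (hBL2 K ν hexp ℓ α κ (γ - s) (2 + Real.exp (2 * ϑ)) aY aV S T hℓ hα hκ.le hκ1
    (by linarith) (by linarith) haY hST m3 m4 hB).2
  have hc0 : (0 : ℝ) ≤ ((aV : ℝ) ^ 2) ^ γ * κ ^ γ := by positivity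
  refine sub_le_sub ?_ ?_
  · refine le_trans ?_ hmain
    refine mul_le_mul_of_nonneg_right ?_ hm0
    refine div_le_div_of_nonneg_left hc0 ?_ ?_
    · have : 0 < (((T - S + 1) * (aY + aV) : ℕ) : ℝ) := by
        exact_mod_cast Nat.mul_pos (by omega) (by omega)
      exact this
    · have e : (((T - S + 1) * (aY + aV) : ℕ) : ℝ) = (D : ℝ) * P + P := by
        rw [hP, hD]
        push_cast
        ring
      rw [e]
      have h5 : (D : ℝ) * P ≤ (j + 2) * β / (2 * ϑ) := by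
        rw [le_div_iff₀ (by positivity)]
        linarith
      linarith
  · refine mul_le_mul_of_nonneg_left ?_ (Real.exp_pos _).le
    refine herr.trans ?_
    refine mul_le_mul_of_nonneg_left ?_ (by positivity)
    have h4 := pow_le_pow_left₀ (pow_nonneg (Mo_nn ν (γ - s)) ℓ) m8 ((T - S - 1) * (aY + aV))
    refine h4.trans ?_
    rw [← Real.exp_nat_mul]
    refine Real.exp_le_exp.2 ?_
    have e : (((T - S - 1) * (aY + aV) : ℕ) : ℝ) * (-2 * ϑ * (γ - s) * s) =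
        -((γ - s) * s) * ((D : ℝ) * (2 * ϑ * P) - 2 * ϑ * P) := by
      rw [hP, hD, Nat.cast_mul, Nat.cast_sub (by omega : 1 ≤ T - S)]
      push_cast
      ring
    rw [e]
    have h5 : (j + 1) * β - 2 * ϑ * P ≤ (D : ℝ) * (2 * ϑ * P) - 2 * ϑ * P := by linarith
    have h6 : 0 ≤ (γ - s) * s := mul_nonneg (by linarith) hs.le
    have h7 := mul_le_mul_of_nonneg_left h5 h6
    linarith

theorem pf_BLK (hBK1 : T_BK1) (hBK2 : T_BK2) (hBK3 : T_BK3) (hBL1 : T_BL1) (hBL2 : T_BL2)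
    (hBL3 : T_BL3) (hTL2 : T_TL2) (hCTB : T_CTB) (_hAAB : T_AAB) (_hAAM : T_AAM) : T_BLK := by
  classical
  intro K ν _ hexp ℓ α β κ s ϑ δ hℓ hα hα1 hκ hκ1 hHK hs hs1 hβ hϑ hδ hMM aY aV np J y haY haV
    hy hy1 hnpy t ht1 ht2 hb0 hnp0
  have hMM' := hMM
  obtain ⟨m1, m2, m3, m4, m5, m6, m7, m8, m9, m10, m11⟩ := hMM
  set γ : ℝ := 1 / (1 + α) with hγ
  have hγ0 : 0 < γ := by rw [hγ]; positivity
  have hγ1 : γ ≤ 1 := by
    rw [hγ, div_le_one (by linarith)]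
    linarith
  have h2γ : 2 * γ = 2 / (1 + α) := by
    rw [hγ]
    ring
  have hPp : (0 : ℝ) < ((aY + aV : ℕ) : ℝ) := by
    exact_mod_cast (by omega : 0 < aY + aV)
  have hy0 : 0 < y := by
    rw [hy]
    positivity
  set jj : ℕ → ℕ := fun D => ⌊(D : ℝ) * y⌋₊ - 1 with hjj
  have hdet := hBK1 K ℓ α β κ hℓ hα hκ.le hHK aY aV np J jj haY
  obtain ⟨d1, d2, d3, d4, d5⟩ := hdet
  have hpow := hBK2 K ℓ α β κ hℓ hα hκ.le hHK aY aV np J jj haY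
  have hB : 2 + Mo ν 1 ^ ℓ ≤ 2 + Real.exp (2 * ϑ) := by linarith
  have hL2 : ∀ i ∈ II np J jj, Integrable (fun x : ℕ → ℝ => AA K ℓ α κ aY aV i.1 i.2 x ^ γ)
      (iid ν) ∧ ∫ x : ℕ → ℝ, AA K ℓ α κ aY aV i.1 i.2 x ^ γ ∂(iid ν) ≤
        (aV : ℝ) ^ 2 * (2 + Real.exp (2 * ϑ)) ^ 2 := by
    intro i hi
    obtain ⟨hi1, hi2⟩ := mem_II hi
    obtain ⟨q1, q2⟩ := hBL2 K ν hexp ℓ α κ γ (2 + Real.exp (2 * ϑ)) aY aV i.1 i.2 hℓ hα hκ.le
      hκ1 hγ0 hγ1 haY hi1 m1 m4 hB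
    refine ⟨q1, q2.trans ?_⟩
    refine mul_le_of_le_one_right (by positivity) ?_
    exact pow_le_one₀ (pow_nonneg (Mo_nn ν γ) ℓ) (pow_le_one₀ (Mo_nn ν γ) m1)
  have hexp1 : 1 ≤ Real.exp (8 * ϑ) := Real.one_le_exp (by positivity)
  have hL3 : ∀ i ∈ II np J jj, Integrable (fun x : ℕ → ℝ => AA K ℓ α κ aY aV i.1 i.2 x ^
      (2 / (1 + α))) (iid ν) ∧ ∫ x : ℕ → ℝ, AA K ℓ α κ aY aV i.1 i.2 x ^ (2 / (1 + α)) ∂(iid ν) ≤
        (aV : ℝ) ^ 4 * Real.exp (8 * ϑ * ((np * (aY + aV) : ℕ) : ℝ)) := by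
    intro i hi
    obtain ⟨hi1, hi2⟩ := mem_II hi
    obtain ⟨q1, q2⟩ := hBL3 K ν hexp ℓ α κ (Real.exp (8 * ϑ)) aY aV i.1 i.2 hℓ hα hα1 hκ hκ1
      haY haV hi1 m1 hexp1 (by rw [← h2γ]; exact m11)
    refine ⟨q1, q2.trans ?_⟩
    refine mul_le_mul_of_nonneg_left ?_ (by positivity)
    have h3 : (i.2 + 1 - i.1) * (aY + aV) ≤ np * (aY + aV) :=
      Nat.mul_le_mul_right _ (by omega)
    refine (pow_le_pow_right₀ hexp1 h3).trans (le_of_eq ?_)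
    rw [← Real.exp_nat_mul]
    congr 1
    ring
  have hw0 : ∀ x, 0 ≤ w0 K ℓ α β κ aY aV np J jj x := fun x => (d5 x).1
  have hi1 : Integrable (fun x => w0 K ℓ α β κ aY aV np J jj x ^ (1 / (1 + α))) (iid ν) := by
    refine (integrable_finsetSum (II np J jj) fun i hi => (hL2 i hi).1).mono'
      (d1.pow_const _).aestronglyMeasurable (Filter.Eventually.of_forall fun x => ?_)
    rw [Real.norm_of_nonneg (Real.rpow_nonneg (hw0 x) _)]
    exact (hpow x γ hγ0).2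
  have hi2 : Integrable (fun x => w0 K ℓ α β κ aY aV np J jj x ^ (2 / (1 + α))) (iid ν) := by
    refine (integrable_finsetSum (II np J jj) fun i hi => (hL3 i hi).1).mono'
      (d1.pow_const _).aestronglyMeasurable (Filter.Eventually.of_forall fun x => ?_)
    rw [Real.norm_of_nonneg (Real.rpow_nonneg (hw0 x) _)]
    exact (hpow x (2 / (1 + α)) (by positivity)).2
  refine ⟨w0 K ℓ α β κ aY aV np J jj, l0 K ℓ α β κ aY aV np J jj, d1, d2, d3, d4, hw0,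
    fun x => (d5 x).2.1, fun x => (d5 x).2.2.1, fun x => (d5 x).2.2.2.1,
    fun x => (d5 x).2.2.2.2, hi1, hi2, ?_, ?_, ?_⟩
  · intro j hj
    by_cases hjr : j < 3 ∨ J < j
    · refine le_trans (mul_nonpos_of_nonneg_of_nonpos (Nat.cast_nonneg _) (ht1 j hj hjr)) ?_
      refine integral_nonneg fun x => ?_
      simp only [Pi.zero_apply]
      split_ifs
      · exact Real.rpow_nonneg (hw0 x) _
      · exact le_rfl
    · push Not at hjr
      obtain ⟨hj3, hjJ⟩ := hjr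
      obtain ⟨c1, c2⟩ := hCTB np J j y hy0 hy1 hj3 hjJ hnpy
      refine (ht2 j hj3 hjJ).trans ?_
      refine (mul_le_mul_of_nonneg_right c1 (hb0 j hj3 hjJ)).trans ?_
      refine hBK3 K ν hexp ℓ α β κ s hℓ hα hκ hκ1 hHK hs hs1 hβ.le m1 m3 m4 aY aV np J j jj _
        haY hj fun i hi hij => ?_
      obtain ⟨hi1, hi2⟩ := mem_II hi
      obtain ⟨c3, c4⟩ := c2 i hi hij
      have e : ((i.2 - i.1 : ℕ) : ℝ) * y * β = ((i.2 - i.1 : ℕ) : ℝ) *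
          (2 * ϑ * ((aY + aV : ℕ) : ℝ)) := by
        rw [hy]
        field_simp
      refine blk_one hBL1 hBL2 hTL2 K ν hexp ℓ α β κ s ϑ δ hℓ hα hκ hκ1 hs hs1 hϑ hδ hMM' aY aV
        np i.1 i.2 j haY haV hi1 hi2 ?_ ?_ hnp0
      · rw [← e]
        exact mul_le_mul_of_nonneg_right c3 hβ.le
      · rw [← e]
        exact mul_le_mul_of_nonneg_right c4.le hβ.le
  · have h1 : ∫ x, w0 K ℓ α β κ aY aV np J jj x ^ (1 / (1 + α)) ∂(iid ν) ≤
        (np : ℝ) ^ 2 * ((aV : ℝ) ^ 2 * (2 + Real.exp (2 * ϑ)) ^ 2) := by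
      calc ∫ x, w0 K ℓ α β κ aY aV np J jj x ^ (1 / (1 + α)) ∂(iid ν)
          ≤ ∫ x, ∑ i ∈ II np J jj, AA K ℓ α κ aY aV i.1 i.2 x ^ γ ∂(iid ν) :=
            integral_mono hi1 (integrable_finsetSum _ fun i hi => (hL2 i hi).1)
              fun x => (hpow x γ hγ0).2
        _ = ∑ i ∈ II np J jj, ∫ x, AA K ℓ α κ aY aV i.1 i.2 x ^ γ ∂(iid ν) :=
            integral_finsetSum _ fun i hi => (hL2 i hi).1
        _ ≤ ∑ _i ∈ II np J jj, (aV : ℝ) ^ 2 * (2 + Real.exp (2 * ϑ)) ^ 2 :=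
            Finset.sum_le_sum fun i hi => (hL2 i hi).2
        _ = ((II np J jj).card : ℝ) * ((aV : ℝ) ^ 2 * (2 + Real.exp (2 * ϑ)) ^ 2) := by
            rw [Finset.sum_const, nsmul_eq_mul]
        _ ≤ _ := mul_le_mul_of_nonneg_right (II_card_le np J jj) (by positivity)
    refine h1.trans ?_
    have e : (np : ℝ) ^ 2 * ((aV : ℝ) ^ 2 * (2 + Real.exp (2 * ϑ)) ^ 2) =
        (np : ℝ) ^ 2 * (aV : ℝ) ^ 2 * (2 + Real.exp (2 * ϑ)) ^ 2 := by ring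
    rw [e]
    rcases Nat.eq_zero_or_pos np with h | h
    · rw [h]
      simp
    · refine le_mul_of_one_le_left (by positivity) ?_
      exact_mod_cast Nat.mul_pos h (by omega)
  · calc ∫ x, w0 K ℓ α β κ aY aV np J jj x ^ (2 / (1 + α)) ∂(iid ν)
        ≤ ∫ x, ∑ i ∈ II np J jj, AA K ℓ α κ aY aV i.1 i.2 x ^ (2 / (1 + α)) ∂(iid ν) :=
          integral_mono hi2 (integrable_finsetSum _ fun i hi => (hL3 i hi).1)
            fun x => (hpow x (2 / (1 + α)) (by positivity)).2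
      _ = ∑ i ∈ II np J jj, ∫ x, AA K ℓ α κ aY aV i.1 i.2 x ^ (2 / (1 + α)) ∂(iid ν) :=
          integral_finsetSum _ fun i hi => (hL3 i hi).1
      _ ≤ ∑ _i ∈ II np J jj, (aV : ℝ) ^ 4 * Real.exp (8 * ϑ * ((np * (aY + aV) : ℕ) : ℝ)) :=
          Finset.sum_le_sum fun i hi => (hL3 i hi).2
      _ = ((II np J jj).card : ℝ) *
          ((aV : ℝ) ^ 4 * Real.exp (8 * ϑ * ((np * (aY + aV) : ℕ) : ℝ))) := by
          rw [Finset.sum_const, nsmul_eq_mul]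
      _ ≤ (np : ℝ) ^ 2 * ((aV : ℝ) ^ 4 * Real.exp (8 * ϑ * ((np * (aY + aV) : ℕ) : ℝ))) :=
          mul_le_mul_of_nonneg_right (II_card_le np J jj) (by positivity)
      _ = _ := by ring

end Pool.Agent.H81.CEL
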