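import Pool.Agent.H98.CE.Targets

/-! (CTB) the number of pairs of windows with the label `j`. -/

set_option autoImplicit false

open MeasureTheory ProbabilityTheory Filter Topology
open Pool.Agent.H95 Pool.Agent.H95.Cop Pool.Agent.H98.CE

namespace Pool.Agent.H81.CEL

theorem pf_CTB : T_CTB := by
  classical
  intro np J j y hy hy1 hj3 hjJ hnp
  have hfl : ∀ D : ℕ, ⌊(D : ℝ) * y⌋₊ - 1 = j → (j : ℝ) + 1 ≤ (D : ℝ) * y ∧
      (D : ℝ) * y < j + 2 := by
    intro D hD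
    have h1 : ⌊(D : ℝ) * y⌋₊ = j + 1 := by omega
    rw [Nat.floor_eq_iff (by positivity)] at h1
    push_cast at h1
    exact ⟨h1.1, by linarith [h1.2]⟩
  have hfl' : ∀ D : ℕ, (j : ℝ) + 1 ≤ (D : ℝ) * y → (D : ℝ) * y < j + 2 →
      ⌊(D : ℝ) * y⌋₊ - 1 = j := by
    intro D h1 h2
    have h3 : ⌊(D : ℝ) * y⌋₊ = j + 1 := by
      rw [Nat.floor_eq_iff (by positivity)]
      push_cast
      exact ⟨h1, by linarith⟩
    omega
  refine ⟨?_, fun i _ hi => hfl _ hi⟩
  set D0 : ℕ := ⌈((j : ℝ) + 1) / y⌉₊ with hD0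
  set D1 : ℕ := ⌈((j : ℝ) + 2) / y⌉₊ with hD1
  have hD : ∀ D ∈ Finset.Ico D0 D1, (j : ℝ) + 1 ≤ (D : ℝ) * y ∧ (D : ℝ) * y < j + 2 := by
    intro D hD
    rw [Finset.mem_Ico, hD0, hD1, Nat.ceil_le, Nat.lt_ceil, div_le_iff₀ hy, lt_div_iff₀ hy] at hD
    exact hD
  have hJ : ((j : ℝ) + 2) / y ≤ ((J : ℝ) + 2) / y := by
    have : (j : ℝ) ≤ J := by exact_mod_cast hjJ
    gcongr
  have hcard : 1 / y - 1 ≤ ((D1 - D0 : ℕ) : ℝ) := by
    have h1 : ((j : ℝ) + 2) / y ≤ D1 := Nat.le_ceil _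
    have h2 : (D0 : ℝ) < ((j : ℝ) + 1) / y + 1 := Nat.ceil_lt_add_one (by positivity)
    have h3 : D0 ≤ D1 := Nat.ceil_mono (by gcongr; norm_num)
    rw [Nat.cast_sub h3]
    have h4 : ((j : ℝ) + 2) / y = ((j : ℝ) + 1) / y + 1 / y := by ring
    linarith
  have hmin : ∀ D ∈ Finset.Ico D0 D1, (np : ℝ) - ((J : ℝ) + 2) / y ≤ ((np - D : ℕ) : ℝ) := by
    intro D hD'
    have h1 := (hD D hD').2
    have h2 : (D : ℝ) ≤ ((j : ℝ) + 2) / y := by
      rw [le_div_iff₀ hy]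
      exact h1.le
    have h3 : D ≤ np := by
      have : (D : ℝ) ≤ np := h2.trans (hJ.trans hnp)
      exact_mod_cast this
    rw [Nat.cast_sub h3]
    linarith
  have hinj : ((Finset.Ico D0 D1).sigma fun D => Finset.range (np - D)).card ≤
      ((II np J (fun D => ⌊(D : ℝ) * y⌋₊ - 1)).filter
        (fun i => ⌊((i.2 - i.1 : ℕ) : ℝ) * y⌋₊ - 1 = j)).card := by
    refine Finset.card_le_card_of_injOn (fun s => (s.2, s.2 + s.1)) ?_ ?_
    · rintro ⟨D, S⟩ hs
      rw [Finset.mem_coe, Finset.mem_sigma, Finset.mem_range] at hs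
      obtain ⟨hs1, hs2⟩ := hs
      have h1 := hD D hs1
      have h2 := hfl' D h1.1 h1.2
      have hD1 : 0 < D := by
        rcases Nat.eq_zero_or_pos D with h | h
        · rw [h] at h1
          simp only [CharP.cast_eq_zero, zero_mul] at h1
          have : (0 : ℝ) ≤ j := Nat.cast_nonneg _
          linarith [h1.1]
        · exact h
      simp only at hs2
      rw [Finset.mem_coe, Finset.mem_filter]
      have h3 : S + D - S = D := by omega
      refine ⟨?_, ?_⟩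
      · unfold II
        rw [Finset.mem_filter, Finset.mem_product, Finset.mem_range, Finset.mem_range]
        simp only [h3, h2]
        exact ⟨⟨by omega, by omega⟩, by omega, hj3, hjJ⟩
      · simp only [h3, h2]
    · rintro ⟨D, S⟩ _ ⟨D', S'⟩ _ h
      simp only [Prod.mk.injEq] at h
      obtain ⟨rfl, h⟩ := h
      have : D = D' := by omega
      subst this
      rfl
  calc (1 / y - 1) * (np - ((J : ℝ) + 2) / y)
      ≤ ((D1 - D0 : ℕ) : ℝ) * (np - ((J : ℝ) + 2) / y) :=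
        mul_le_mul_of_nonneg_right hcard (by linarith)
    _ = ∑ D ∈ Finset.Ico D0 D1, ((np : ℝ) - ((J : ℝ) + 2) / y) := by
        rw [Finset.sum_const, Nat.card_Ico, nsmul_eq_mul]
    _ ≤ ∑ D ∈ Finset.Ico D0 D1, ((np - D : ℕ) : ℝ) := Finset.sum_le_sum hmin
    _ = (((Finset.Ico D0 D1).sigma fun D => Finset.range (np - D)).card : ℝ) := by
        rw [Finset.card_sigma, Nat.cast_sum]
        simp only [Finset.card_range]
    _ ≤ _ := by exact_mod_cast hinj

end Pool.Agent.H81.CEL
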