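import Pool.Agent.H98.CE.Targets

/-! (DS2) the densities of the dressed functional. -/

set_option autoImplicit false

open MeasureTheory ProbabilityTheory Filter Topology
open Pool.Agent.H95 Pool.Agent.H95.Cop Pool.Agent.H98.CE

namespace Pool.Agent.H81.CEL

theorem ds_meas {lab : (ℕ → ℝ) → ℕ} (hl : Measurable lab) (s N : ℕ) :
    MeasurableSet {x : ℕ → ℝ | ∀ k < N, lab (shift (k * s) x) = 0} := by
  have h1 : {x : ℕ → ℝ | ∀ k < N, lab (shift (k * s) x) = 0} =
      ⋂ k ∈ Finset.range N, {x : ℕ → ℝ | lab (shift (k * s) x) = 0} := by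
    ext x
    simp only [Set.mem_ofPred_eq, Set.mem_iInter, Finset.mem_range]
  rw [h1]
  refine Finset.measurableSet_biInter _ fun k _ => ?_
  exact (hl.comp (measurable_shift (k * s))) (measurableSet_singleton 0)

theorem ds_ind (ν : Measure ℝ) [IsProbabilityMeasure ν] (t : ℕ) (lab : (ℕ → ℝ) → ℕ)
    (hl : Measurable lab) :
    Integrable (fun x : ℕ → ℝ => if 1 ≤ lab (shift t x) then (1 : ℝ) else 0) (iid ν) ∧
    ∫ x : ℕ → ℝ, (if 1 ≤ lab (shift t x) then (1 : ℝ) else 0) ∂(iid ν) =
      (iid ν).real {x : ℕ → ℝ | 1 ≤ lab x} := by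
  have hm : MeasurableSet {x : ℕ → ℝ | 1 ≤ lab x} :=
    hl (MeasurableSet.of_discrete (s := {m : ℕ | 1 ≤ m}))
  have hm' : MeasurableSet (shift t ⁻¹' {x : ℕ → ℝ | 1 ≤ lab x}) := measurable_shift t hm
  have h1 : (fun x : ℕ → ℝ => if 1 ≤ lab (shift t x) then (1 : ℝ) else 0) =
      (shift t ⁻¹' {x : ℕ → ℝ | 1 ≤ lab x}).indicator 1 := by
    classical
    funext x
    by_cases h : 1 ≤ lab (shift t x)
    · rw [if_pos h, Set.indicator_of_mem (by exact h)]
      rfl
    · rw [if_neg h, Set.indicator_of_notMem (by exact h)]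
  rw [h1]
  constructor
  · exact (integrable_const (1 : ℝ)).indicator hm'
  · rw [integral_indicator_one hm', measureReal_def, measureReal_def,
      measure_shift_preimage ν t hm]

open Classical in
theorem ds_low (ν : Measure ℝ) [IsProbabilityMeasure ν] (s N M : ℕ) (hNM : N ≤ M)
    (lab : (ℕ → ℝ) → ℕ) (hl : Measurable lab) (F : (ℕ → ℝ) → ℝ) (hF : Measurable F)
    (hF1 : ∀ x, 1 ≤ F x ∧ F x ≤ 2) (γ p : ℝ) (hγ : 0 < γ) (hγ1 : γ < 1)
    (hp : (iid ν).real {x : ℕ → ℝ | 1 ≤ lab x} ≤ p) :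
    (2 : ℝ) ^ (γ - 1) * (∫ x, F x ∂(iid ν) - 2 * (M * p)) ≤
      ∫ x, (if ∀ k < N, lab (shift (k * s) x) = 0 then F x ^ γ else 0) ∂(iid ν) := by
  have hp0 : 0 ≤ p := measureReal_nonneg.trans hp
  have hF0 : ∀ x, 0 < F x := fun x => lt_of_lt_of_le one_pos (hF1 x).1
  have hpt : ∀ x : ℕ → ℝ, (2 : ℝ) ^ (γ - 1) * (F x - 2 * ∑ k ∈ Finset.range N,
      (if 1 ≤ lab (shift (k * s) x) then (1 : ℝ) else 0)) ≤
        if ∀ k < N, lab (shift (k * s) x) = 0 then F x ^ γ else 0 := by
    intro x
    split_ifs with h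
    · have h1 : ∑ k ∈ Finset.range N,
          (if 1 ≤ lab (shift (k * s) x) then (1 : ℝ) else 0) = 0 := by
        refine Finset.sum_eq_zero fun k hk => ?_
        rw [h k (Finset.mem_range.1 hk)]
        simp
      rw [h1, mul_zero, sub_zero]
      have h2 : (2 : ℝ) ^ (γ - 1) ≤ F x ^ (γ - 1) :=
        Real.rpow_le_rpow_of_nonpos (hF0 x) (hF1 x).2 (by linarith)
      calc (2 : ℝ) ^ (γ - 1) * F x ≤ F x ^ (γ - 1) * F x :=
            mul_le_mul_of_nonneg_right h2 (hF0 x).le
        _ = F x ^ γ := by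
            rw [Real.rpow_sub_one (hF0 x).ne', div_mul_cancel₀ _ (hF0 x).ne']
    · push Not at h
      obtain ⟨k, hk, hk0⟩ := h
      have h1 : (1 : ℝ) ≤ ∑ k ∈ Finset.range N,
          (if 1 ≤ lab (shift (k * s) x) then (1 : ℝ) else 0) := by
        have h2 : (1 : ℝ) = (if 1 ≤ lab (shift (k * s) x) then (1 : ℝ) else 0) := by
          rw [if_pos (Nat.one_le_iff_ne_zero.2 hk0)]
        conv_lhs => rw [h2]
        refine Finset.single_le_sum (f := fun k => if 1 ≤ lab (shift (k * s) x) then (1 : ℝ)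
          else 0) (fun i _ => ?_) (Finset.mem_range.2 hk)
        split_ifs <;> norm_num
      have h3 : F x - 2 * ∑ k ∈ Finset.range N,
          (if 1 ≤ lab (shift (k * s) x) then (1 : ℝ) else 0) ≤ 0 := by
        linarith [(hF1 x).2]
      exact mul_nonpos_of_nonneg_of_nonpos (by positivity) h3
  have hFi : Integrable F (iid ν) := by
    refine Integrable.of_bound hF.aestronglyMeasurable 2 (Filter.Eventually.of_forall fun x => ?_)
    rw [Real.norm_of_nonneg (hF0 x).le]
    exact (hF1 x).2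
  have hsi : Integrable (fun x : ℕ → ℝ => ∑ k ∈ Finset.range N,
      (if 1 ≤ lab (shift (k * s) x) then (1 : ℝ) else 0)) (iid ν) :=
    integrable_finsetSum _ fun k _ => (ds_ind ν (k * s) lab hl).1
  have hR : Integrable (fun x : ℕ → ℝ => if ∀ k < N, lab (shift (k * s) x) = 0 then F x ^ γ
      else 0) (iid ν) := by
    have hm : Measurable (fun x : ℕ → ℝ => if ∀ k < N, lab (shift (k * s) x) = 0 then F x ^ γ
        else 0) := Measurable.ite (ds_meas hl s N) (hF.pow_const γ) measurable_const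
    refine Integrable.of_bound hm.aestronglyMeasurable 2 (Filter.Eventually.of_forall fun x => ?_)
    split_ifs with h
    · rw [Real.norm_of_nonneg (Real.rpow_nonneg (hF0 x).le _)]
      calc F x ^ γ ≤ F x ^ (1 : ℝ) :=
            Real.rpow_le_rpow_of_exponent_le (hF1 x).1 hγ1.le
        _ ≤ 2 := by
            rw [Real.rpow_one]
            exact (hF1 x).2
    · simp
  have hL : Integrable (fun x : ℕ → ℝ => (2 : ℝ) ^ (γ - 1) * (F x - 2 * ∑ k ∈ Finset.range N,
      (if 1 ≤ lab (shift (k * s) x) then (1 : ℝ) else 0))) (iid ν) :=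
    (hFi.sub (hsi.const_mul 2)).const_mul _
  refine le_trans ?_ (integral_mono hL hR hpt)
  rw [integral_const_mul, integral_sub hFi (hsi.const_mul 2), integral_const_mul,
    integral_finsetSum _ fun k _ => (ds_ind ν (k * s) lab hl).1]
  refine mul_le_mul_of_nonneg_left ?_ (by positivity)
  have h4 : ∑ k ∈ Finset.range N, ∫ x : ℕ → ℝ, (if 1 ≤ lab (shift (k * s) x) then (1 : ℝ)
      else 0) ∂(iid ν) ≤ M * p := by
    calc ∑ k ∈ Finset.range N, ∫ x : ℕ → ℝ, (if 1 ≤ lab (shift (k * s) x) then (1 : ℝ)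
          else 0) ∂(iid ν) ≤ ∑ _k ∈ Finset.range N, p := by
          refine Finset.sum_le_sum fun k _ => ?_
          rw [(ds_ind ν (k * s) lab hl).2]
          exact hp
      _ = N * p := by rw [Finset.sum_const, Finset.card_range, nsmul_eq_mul]
      _ ≤ M * p := by
          have : (N : ℝ) ≤ M := by exact_mod_cast hNM
          exact mul_le_mul_of_nonneg_right this hp0
  linarith

/-- the event that only the block `i` is active -/
theorem oa_iff (n ℓ M : ℕ) (lab : (ℕ → ℝ) → ℕ) (i j : ℕ) (hi : i < M) (hj : 1 ≤ j)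
    (x : ℕ → ℝ) : (oa n ℓ M lab i x ∧ lab (shift (i * (n * ℓ)) x) = j) ↔
      (∀ k < i, lab (shift (k * (n * ℓ)) x) = 0) ∧ lab (shift (i * (n * ℓ)) x) = j ∧
      ∀ k < M - i - 1, lab (shift (k * (n * ℓ)) (shift (n * ℓ) (shift (i * (n * ℓ)) x))) = 0 := by
  have hsh : ∀ k : ℕ, shift (k * (n * ℓ)) (shift (n * ℓ) (shift (i * (n * ℓ)) x)) =
      shift ((k + i + 1) * (n * ℓ)) x := by
    intro k
    rw [shift_shift, shift_shift]
    congr 1
    ring
  simp only [hsh]
  unfold oa
  constructor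
  · rintro ⟨h1, h2⟩
    refine ⟨fun k hk => ?_, h2, fun k hk => ?_⟩
    · by_contra h3
      have := (h1 k (by omega)).1 (Nat.one_le_iff_ne_zero.2 h3)
      omega
    · by_contra h3
      have := (h1 (k + i + 1) (by omega)).1 (Nat.one_le_iff_ne_zero.2 h3)
      omega
  · rintro ⟨h1, h2, h3⟩
    refine ⟨fun k hk => ?_, h2⟩
    rcases lt_trichotomy k i with h | h | h
    · rw [h1 k h]
      constructor
      · intro h4
        omega
      · intro h4
        omega
    · subst h
      rw [h2]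
      exact ⟨fun _ => rfl, fun _ => hj⟩
    · have h4 := h3 (k - i - 1) (by omega)
      have h5 : k - i - 1 + i + 1 = k := by omega
      rw [h5] at h4
      rw [h4]
      constructor
      · intro h6
        omega
      · intro h6
        omega

theorem pf_DS2 (hFWB : T_FWB) (hSFB : T_SFB) : T_DS2 := by
  classical
  intro K ν _ ℓ α β κ n J t C E w lab hℓ hα hκ hn hO ht glo ghi k M lo hi hglo hlk hlo hhi hlohi
    p q e hp hq hqle he heM j hj
  set γ : ℝ := 1 / (1 + α) with hγ
  have hγ0 : 0 < γ := by rw [hγ]; positivity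
  have hγ1 : γ < 1 := by
    rw [hγ, div_lt_one (by linarith)]
    linarith
  have hhiM : hi ≤ M := by
    by_contra h
    push Not at h
    have h1 : M * n < hi * n := Nat.mul_lt_mul_of_pos_right h hn
    have h2 : hi * n ≤ M * n := le_trans (Nat.le_add_right _ _) hhi
    omega
  have hw0 : ∀ x, 0 ≤ w x := hO.nonneg
  -- the functionals
  have hfw := hFWB K ν ℓ α κ n glo ghi hℓ hα hκ hglo hlk k
  obtain ⟨sm, sb, -, si⟩ := hSFB K ν ℓ α κ n glo ghi hℓ hα hκ hglo hlk k
  set T : ℕ → (ℕ → ℝ) → ℝ := fun i x => if oa n ℓ M lab i x ∧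
    lab (shift (i * (n * ℓ)) x) = j then (fw K ℓ α κ n glo ghi x k (i * n) *
      w (shift (i * (n * ℓ)) x) * sf K ℓ α κ n glo ghi k (shift ((i + 1) * (n * ℓ)) x)) ^ γ
      else 0 with hT
  have hpt : ∀ x : ℕ → ℝ, (if dl n ℓ M lo hi lab x = j then
      dw K ℓ α κ n glo ghi k M lo hi w lab x ^ γ else 0) = ∑ i ∈ Finset.Ico lo hi, T i x := by
    intro x
    by_cases hex : ∃ i ∈ Finset.Ico lo hi, oa n ℓ M lab i x
    · obtain ⟨i, hi1, hi2⟩ := hex
      have hiM : i < M := lt_of_lt_of_le (Finset.mem_Ico.1 hi1).2 hhiM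
      have huniq : ∀ i' ∈ Finset.Ico lo hi, i' ≠ i → ¬ oa n ℓ M lab i' x := by
        intro i' hi' hne h
        have h1 := (hi2 i' (lt_of_lt_of_le (Finset.mem_Ico.1 hi').2 hhiM)).1
          ((h i' (lt_of_lt_of_le (Finset.mem_Ico.1 hi').2 hhiM)).2 rfl)
        exact hne h1
      have e1 : dl n ℓ M lo hi lab x = lab (shift (i * (n * ℓ)) x) := by
        unfold dl
        rw [Finset.sum_eq_single i, if_pos hi2]
        · intro i' hi' hne
          rw [if_neg (huniq i' hi' hne)]
        · intro h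
          exact absurd hi1 h
      have e2 : dw K ℓ α κ n glo ghi k M lo hi w lab x = fw K ℓ α κ n glo ghi x k (i * n) *
          w (shift (i * (n * ℓ)) x) *
            sf K ℓ α κ n glo ghi k (shift ((i + 1) * (n * ℓ)) x) := by
        unfold dw
        rw [Finset.sum_eq_single i, if_pos hi2]
        · intro i' hi' hne
          rw [if_neg (huniq i' hi' hne)]
        · intro h
          exact absurd hi1 h
      rw [e1, e2, Finset.sum_eq_single i]
      · rw [hT]
        simp only [hi2, true_and]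
      · intro i' hi' hne
        rw [hT]
        simp only
        rw [if_neg]
        intro h
        exact huniq i' hi' hne h.1
      · intro h
        exact absurd hi1 h
    · push Not at hex
      have e1 : dl n ℓ M lo hi lab x = 0 := by
        unfold dl
        refine Finset.sum_eq_zero fun i hi' => ?_
        rw [if_neg (hex i hi')]
      rw [e1, if_neg (by omega)]
      symm
      refine Finset.sum_eq_zero fun i hi' => ?_
      rw [hT]
      simp only
      rw [if_neg]
      intro h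
      exact hex i hi' h.1
  set B : (ℕ → ℝ) → ℝ := fun x => if lab x = j then w x ^ γ else 0 with hB
  have hlabm : MeasurableSet {x : ℕ → ℝ | lab x = j} := hO.ml (measurableSet_singleton j)
  have hBm : Measurable B := Measurable.ite hlabm (hO.mw.pow_const γ) measurable_const
  have hBd : DepLt (n * ℓ) B := by
    intro x x' hx
    rw [hB]
    simp only
    rw [hO.dl x x' hx, hO.dw x x' hx]
  have hmain : ∀ i ∈ Finset.Ico lo hi, Integrable (T i) (iid ν) ∧
      q ^ 2 * (n * t j) ≤ ∫ x, T i x ∂(iid ν) := by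
    intro i hi'
    have hiM : i < M := lt_of_lt_of_le (Finset.mem_Ico.1 hi').2 hhiM
    have hkg : k * ghi ≤ i * n := hlo.trans (Nat.mul_le_mul_right n (Finset.mem_Ico.1 hi').1)
    obtain ⟨fm, fb, fd⟩ := hfw (i * n)
    obtain ⟨fd1, fi⟩ := fd hkg
    set A : (ℕ → ℝ) → ℝ := fun x => if ∀ k' < i, lab (shift (k' * (n * ℓ)) x) = 0 then
      fw K ℓ α κ n glo ghi x k (i * n) ^ γ else 0 with hA
    set Cc : (ℕ → ℝ) → ℝ := fun x => if ∀ k' < M - i - 1, lab (shift (k' * (n * ℓ)) x) = 0 then
      sf K ℓ α κ n glo ghi k x ^ γ else 0 with hCc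
    have hAm : Measurable A := Measurable.ite (ds_meas hO.ml _ _) (fm.pow_const γ)
      measurable_const
    have hCm : Measurable Cc := Measurable.ite (ds_meas hO.ml _ _) (sm.pow_const γ)
      measurable_const
    have hAd : DepLt (i * (n * ℓ)) A := by
      intro x x' hx
      rw [hA]
      simp only
      have h1 : ∀ k' < i, lab (shift (k' * (n * ℓ)) x) = lab (shift (k' * (n * ℓ)) x') := by
        intro k' hk'
        refine hO.dl _ _ fun m hm => ?_
        rw [shift_apply, shift_apply]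
        refine hx _ ?_
        have h2 : (k' + 1) * (n * ℓ) ≤ i * (n * ℓ) := Nat.mul_le_mul_right _ hk'
        have h3 : (k' + 1) * (n * ℓ) = k' * (n * ℓ) + n * ℓ := by ring
        omega
      have h2 : fw K ℓ α κ n glo ghi x k (i * n) = fw K ℓ α κ n glo ghi x' k (i * n) := by
        refine fd1 x x' fun m hm => hx m ?_
        rwa [mul_assoc] at hm
      have h3 : (∀ k' < i, lab (shift (k' * (n * ℓ)) x) = 0) ↔
          ∀ k' < i, lab (shift (k' * (n * ℓ)) x') = 0 :=
        forall₂_congr fun k' hk' => by rw [h1 k' hk']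
      rw [h2]
      by_cases h4 : ∀ k' < i, lab (shift (k' * (n * ℓ)) x') = 0
      · rw [if_pos h4, if_pos (h3.2 h4)]
      · rw [if_neg h4, if_neg fun h => h4 (h3.1 h)]
    have hTe : ∀ x, T i x = A x * (B (shift (i * (n * ℓ)) x) *
        Cc (shift (n * ℓ) (shift (i * (n * ℓ)) x))) := by
      intro x
      have hiff := oa_iff n ℓ M lab i j hiM hj x
      have hsh : shift (n * ℓ) (shift (i * (n * ℓ)) x) = shift ((i + 1) * (n * ℓ)) x := by
        rw [shift_shift]
        congr 1
        ring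
      rw [hT, hA, hB, hCc]
      simp only
      by_cases h : oa n ℓ M lab i x ∧ lab (shift (i * (n * ℓ)) x) = j
      · obtain ⟨h1, h2, h3⟩ := hiff.1 h
        rw [if_pos h, if_pos h1, if_pos h2, if_pos h3, hsh,
          Real.mul_rpow (mul_nonneg (by linarith [(fb x).1]) (hw0 _)) (by
            linarith [(sb (shift ((i + 1) * (n * ℓ)) x)).1]),
          Real.mul_rpow (by linarith [(fb x).1]) (hw0 _)]
        ring
      · rw [if_neg h]
        by_cases h1 : ∀ k' < i, lab (shift (k' * (n * ℓ)) x) = 0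
        · by_cases h2 : lab (shift (i * (n * ℓ)) x) = j
          · by_cases h3 : ∀ k' < M - i - 1,
              lab (shift (k' * (n * ℓ)) (shift (n * ℓ) (shift (i * (n * ℓ)) x))) = 0
            · exact absurd (hiff.2 ⟨h1, h2, h3⟩) h
            · rw [if_neg h3, mul_zero, mul_zero]
          · rw [if_neg h2, zero_mul, mul_zero]
        · rw [if_neg h1, zero_mul]
    have hb2 : ∀ y : ℝ, 1 ≤ y → y ≤ 2 → 0 ≤ y ^ γ ∧ y ^ γ ≤ 2 := by
      intro y h1 h2
      refine ⟨Real.rpow_nonneg (by linarith) _, ?_⟩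
      calc y ^ γ ≤ y ^ (1 : ℝ) := Real.rpow_le_rpow_of_exponent_le h1 hγ1.le
        _ ≤ 2 := by rw [Real.rpow_one]; exact h2
    have hA2 : ∀ x, 0 ≤ A x ∧ A x ≤ 2 := by
      intro x
      rw [hA]
      simp only
      split_ifs
      · exact hb2 _ (fb x).1 (fb x).2
      · norm_num
    have hC2 : ∀ x, 0 ≤ Cc x ∧ Cc x ≤ 2 := by
      intro x
      rw [hCc]
      simp only
      split_ifs
      · exact hb2 _ (sb x).1 (sb x).2
      · norm_num
    have hB2 : ∀ x, 0 ≤ B x ∧ B x ≤ w x ^ γ := by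
      intro x
      rw [hB]
      simp only
      split_ifs
      · exact ⟨Real.rpow_nonneg (hw0 x) _, le_rfl⟩
      · exact ⟨le_rfl, Real.rpow_nonneg (hw0 x) _⟩
    have hGm : Measurable (fun y : ℕ → ℝ => B y * Cc (shift (n * ℓ) y)) :=
      hBm.mul (hCm.comp (measurable_shift _))
    have hTf : T i = fun x => A x * (fun y : ℕ → ℝ => B y * Cc (shift (n * ℓ) y))
        (shift (i * (n * ℓ)) x) := by
      funext x
      exact hTe x
    have hwi : Integrable (fun x : ℕ → ℝ => w (shift (i * (n * ℓ)) x) ^ γ) (iid ν) := by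
      have h1 := hO.i1
      exact (measurePreserving_shift ν (i * (n * ℓ))).integrable_comp_of_integrable h1
    constructor
    · refine (hwi.const_mul 4).mono' ?_ (Filter.Eventually.of_forall fun x => ?_)
      · rw [hTf]
        exact (hAm.mul (hGm.comp (measurable_shift _))).aestronglyMeasurable
      · rw [hTe x]
        obtain ⟨a1, a2⟩ := hA2 x
        obtain ⟨b1, b2⟩ := hB2 (shift (i * (n * ℓ)) x)
        obtain ⟨c1, c2⟩ := hC2 (shift (n * ℓ) (shift (i * (n * ℓ)) x))
        rw [Real.norm_of_nonneg (mul_nonneg a1 (mul_nonneg b1 c1))]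
        calc A x * (B (shift (i * (n * ℓ)) x) * Cc (shift (n * ℓ) (shift (i * (n * ℓ)) x)))
            ≤ 2 * (w (shift (i * (n * ℓ)) x) ^ γ * 2) :=
              mul_le_mul a2 (mul_le_mul b2 c2 c1 (b1.trans b2)) (mul_nonneg b1 c1) (by norm_num)
          _ = 4 * w (shift (i * (n * ℓ)) x) ^ γ := by ring
    · rw [hTf, integral_mul_shift ν hAd hAm.aestronglyMeasurable hGm.aestronglyMeasurable,
        integral_mul_shift ν hBd hBm.aestronglyMeasurable hCm.aestronglyMeasurable]
      have hAq : q ≤ ∫ x, A x ∂(iid ν) := by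
        have h1 := ds_low ν (n * ℓ) i M hiM.le lab hO.ml
          (fun x => fw K ℓ α κ n glo ghi x k (i * n)) fm fb γ p hγ0 hγ1 hp
        rw [fi] at h1
        exact hqle.trans h1
      have hCq : q ≤ ∫ x, Cc x ∂(iid ν) := by
        have h1 := ds_low ν (n * ℓ) (M - i - 1) M (by omega) lab hO.ml
          (fun x => sf K ℓ α κ n glo ghi k x) sm sb γ p hγ0 hγ1 hp
        rw [si] at h1
        exact hqle.trans h1
      have hBq : (n : ℝ) * t j ≤ ∫ x, B x ∂(iid ν) := hO.dens j hj
      have hnt : 0 ≤ (n : ℝ) * t j := mul_nonneg (Nat.cast_nonneg _) (ht j)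
      calc q ^ 2 * (n * t j) = q * ((n * t j) * q) := by ring
        _ ≤ (∫ x, A x ∂(iid ν)) * ((∫ x, B x ∂(iid ν)) * ∫ x, Cc x ∂(iid ν)) :=
            mul_le_mul hAq (mul_le_mul hBq hCq hq (hnt.trans hBq)) (mul_nonneg hnt hq)
              (hq.trans hAq)
  calc ((M * n : ℕ) : ℝ) * (e * t j) = (e * M) * (n * t j) := by
        push_cast
        ring
    _ ≤ ((hi - lo : ℝ) * q ^ 2) * (n * t j) :=
        mul_le_mul_of_nonneg_right heM (mul_nonneg (Nat.cast_nonneg _) (ht j))
    _ = ∑ _i ∈ Finset.Ico lo hi, q ^ 2 * (n * t j) := by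
        rw [Finset.sum_const, Nat.card_Ico, nsmul_eq_mul, Nat.cast_sub hlohi]
        ring
    _ ≤ ∑ i ∈ Finset.Ico lo hi, ∫ x, T i x ∂(iid ν) :=
        Finset.sum_le_sum fun i hi' => (hmain i hi').2
    _ = ∫ x, (if dl n ℓ M lo hi lab x = j then
          dw K ℓ α κ n glo ghi k M lo hi w lab x ^ γ else 0) ∂(iid ν) := by
        rw [← integral_finsetSum _ fun i hi' => (hmain i hi').1]
        exact integral_congr_ae (Filter.Eventually.of_forall fun x => (hpt x).symm)

end Pool.Agent.H81.CEL
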